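import Pool.Agent.DMO.Main
import Pool.Agent.DMO.P_IACT
import Pool.Agent.DMO.P_LCA
import Pool.Agent.DMO.P_GCON
import Pool.Agent.DMO.P_LCC
import Pool.Agent.DMO.P_NEVER
import Pool.Agent.DMO.P_HALF1
import Pool.Agent.DMO.P_ACT2
import Pool.Agent.DMO.P_ACTED
import Pool.Agent.DMO.P_FD
import Pool.Agent.DMO.P_ACT1
import Pool.Agent.DMO.P_INO
import Pool.Agent.DMO.P_LCB
import Pool.Agent.DMO.P_ENDS
import Pool.Agent.DMO.P_RSTEP
import Pool.Agent.DMO.P_IEXT
import Pool.Agent.DMO.P_EXT2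
import Pool.Agent.DMO.P_CACT
import Pool.Agent.DMO.P_ENDH
import Pool.Agent.DMO.P_BACK
import Pool.Agent.DMO.P_EXT1
import Pool.Agent.DMO.P_SORD
import Pool.Agent.DMO.P_CEXT
import Pool.Agent.DMO.P_CVAL
import Pool.Agent.DMO.P_SUR
import Pool.Agent.DMO.P_LIM
import Pool.Agent.DMO.P_GSET
import Pool.Agent.DMO.P_ORB
import Pool.Agent.DMO.P_CON
import Pool.Agent.DMO.P_HALF2
import Pool.Agent.DMO.P_RPATH
import Pool.Agent.DMO.P_TOT
import Pool.Agent.DMO.P_RFAR
import Pool.Agent.DMO.P_ISO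

set_option autoImplicit false

/-!
# The Downey–Moses question for computable linear orders with computable adjacency relation

For every computable linear order on `ℕ` which has a computable copy with computable adjacency
relation, the equivalence asked for in the problem holds: every computable copy has a nontrivial
computable self-embedding iff some convex subset is strongly eta-like.
-/

namespace Pool.Agent.Results.MP_55b29c_lc.OneDecidable

open Pool.Agent.DMO

/-- The equivalence of the question for every computable linear order `r` on `ℕ` which has a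
computable copy `r₀` whose adjacency relation (`b` is the immediate successor of `a`) is
computable. -/
theorem result :
  ∀ r : ℕ → ℕ → Bool, Computable₂ r →
    (∀ a, r a a = true) →
    (∀ a b, r a b = true → r b a = true → a = b) →
    (∀ a b c, r a b = true → r b c = true → r a c = true) →
    (∀ a b, r a b = true ∨ r b a = true) →
    (∃ r₀ adj : ℕ → ℕ → Bool, Computable₂ r₀ ∧ Computable₂ adj ∧
      (∃ e : ℕ ≃ ℕ, ∀ a b, r a b = r₀ (e a) (e b)) ∧
      ∀ a b, adj a b = true ↔ (a ≠ b ∧ r₀ a b = true ∧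
        ∀ c, r₀ a c = true → r₀ c b = true → c = a ∨ c = b)) →
    ((∀ s : ℕ → ℕ → Bool, Computable₂ s →
        (∃ e : ℕ ≃ ℕ, ∀ a b, r a b = s (e a) (e b)) →
        ∃ g : ℕ → ℕ, Computable g ∧ Function.Injective g ∧ g ≠ id ∧
          ∀ a b, s a b = true → s (g a) (g b) = true) ↔
      ∃ C : Set ℕ, (∀ a b c, a ∈ C → c ∈ C → r a b = true → r b c = true → b ∈ C) ∧
        ∃ f : ℚ → ℕ, (∀ q, 1 ≤ f q) ∧ BddAbove (Set.range f) ∧
          ∃ e : C ≃ Lex (Σ q : ℚ, Fin (f q)), ∀ a b : C, r a b = true ↔ e a ≤ e b) := by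
  intro r _ h1 h2 h3 h4 ⟨r₀, adj, hr₀, hadjc, ⟨e₀, he₀⟩, hadj⟩
  have hr : LO r := ⟨h1, h2, h3, h4⟩
  have hLO₀ : LO r₀ := hr.of_equiv e₀ he₀
  -- the adjacency relation in the form used by the construction
  have hA : ComputablePred fun x : ℕ × ℕ => Adj r₀ x.1 x.2 := by
    refine dec_of_iff (dec_of_comp hadjc) ?_
    rintro ⟨a, b⟩
    change Adj r₀ a b ↔ adj a b = true
    rw [hadj]
    constructor
    · rintro ⟨hab, hno⟩
      have hab' := (lt_iff hLO₀).1 hab
      refine ⟨hab'.2, hab'.1, fun c hac hcb => ?_⟩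
      by_contra hne
      push Not at hne
      exact hno c ((lt_iff hLO₀).2 ⟨hac, fun h => hne.1 h.symm⟩)
        ((lt_iff hLO₀).2 ⟨hcb, hne.2⟩)
    · rintro ⟨hne, hle, hno⟩
      refine ⟨(lt_iff hLO₀).2 ⟨hle, hne⟩, fun c hac hcb => ?_⟩
      have hac' := (lt_iff hLO₀).1 hac
      have hcb' := (lt_iff hLO₀).1 hcb
      rcases hno c hac'.1 hcb'.1 with h | h
      · exact hac'.2 h.symm
      · exact hcb'.2 h
  have hTOT : T_TOT := p_TOT p_EXT1 p_EXT2 p_ACT1 p_ACT2
  have hRSTEP : T_RSTEP := p_RSTEP p_CEXT p_CVAL p_CACT p_RPATH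
  have hH1 : T_HALF1 := p_HALF1 hTOT hRSTEP p_IEXT p_IACT p_INO p_SORD
  have hGSET : T_GSET := p_GSET p_CON
  have hNEVER : T_NEVER := p_NEVER p_CON hGSET p_ORB
  have hH2 : T_HALF2 := p_HALF2 p_LIM p_SUR p_ACTED hNEVER
  have hLCC : T_LCC := p_LCC (p_LCB p_LCA)
  exact main_of p_ISO p_FD (p_GCON p_RFAR) p_ENDS p_ENDH hLCC hH1 hH2 p_BACK r hr r₀ hr₀ e₀ he₀
    hA

end Pool.Agent.Results.MP_55b29c_lc.OneDecidable
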